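import Mathlib
import Pool.Agent.Run7.h879.HA.Bridge
import Pool.Agent.TH170.FT.Hodge

/-!
# The noncommutative variational Hodge conjecture for families dominated by powers of abelian
# schemes with one reduction of given slope type: one half of all slope types of every CM field of
# degree `2 r ^ k`

Let `S` be a smooth connected complex variety and `𝒜 → S` an abelian scheme, of any relative
dimension and with arbitrary endomorphisms. It is defined over a finitely generated field, and it
extends to an abelian scheme over a scheme of finite type over `ℤ`. We consider ONE closed point of
this scheme, with a residue field of `p ^ a` elements: one reduction of one fibre of the family. Let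
`A` be the generic fibre (embedded in the complex numbers, the fibre over a very general point).
Suppose that the characteristic polynomial of the Frobenius element at the closed point, on the Tate
module of `A`, is the product of the minimal polynomials of Weil numbers `π i` that generate CM
fields `K i` of degree `2 g i` (`HasFrobenius`); so `dim A = ∑ i, g i`. Nothing is assumed about the
Galois groups of the fields `K i`; they are pairwise independent: for `i ≠ k` and all complex
embeddings `φ` of `K i` and `ψ` of `K k` some automorphism of `ℂ` is the identity on `φ (K i)` and
the complex conjugation on `ψ (K k)` (this is no condition if there is only one field).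

We fix an isomorphism `ν` of the algebraic closure of `ℚ_p` with `ℂ`; it defines a `p`-adic
valuation of `ℂ`, with the value one at `p`. Let `M i` be a function with integral values on the
complex embeddings of `K i`, invariant under complex conjugation (the weights). A CM type `Φ i` of
`K i` (a choice of one element out of each complex conjugate pair of embeddings; there are `2 ^ (g
i)` types), `M i` and a real number `κ ≠ 0` prescribe the slopes `(a + κ M) / 2` (at the embeddings
in `Φ i`) and `(a - κ M) / 2` (outside of `Φ i`) of a Weil number in `K i` (`IsOfType`). If `p`
splits completely in `K i` then, by Honda and Tate, all slopes with rational values between `0` and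
`a` that are symmetric in this way occur for abelian varieties over finite fields. The case `M = 1`,
`κ = a` is the case of ordinary reduction. Slopes are rational, so integral weights `M` are no
restriction.

The property `Q` (`Holds`) of a family of types: for all `A` as above with Weil numbers `π i` of the
slope types `Φ i`, **all Hodge classes in the tensor powers `(H^1(A, ℚ))^{⊗ 2 m}(m)` of the very
general fibre are linear combinations of products of Hodge classes of degree two**
(`HodgeInDegreeTwo`).

Let `f : X → S` be a power of `𝒜 → S`, or any smooth proper family whose fibres are dominated by
such powers (through a correspondence over `S`), and `𝒞` an `S`-linear admissible subcategory of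
`D_perf(X)`. Let `φ` be a global section of `K_0^top(𝒞 / S) ⊗ ℚ` which is algebraic at one point.
Then its values are Hodge classes (known, see the problem); the value at the very general point is
mapped to a Hodge class in `⨁ H^{2 k}(X_s, ℚ)(k)`, which is a combination of images of products of
divisor classes on the powers of `A`. These extend to divisors on the family, after a finite étale
base change, and the projection functor onto `𝒞` is `S`-linear. So **`φ_s` is algebraic for every
`s`**: Q1 holds for all these `f` and `𝒞`.

In the formal statement `W` is `H_1(A, ℚ)`, `per` its inclusion in the tangent space, `ω₀` the form
given by a polarization, and `D` (`GaloisData`, for one prime number `ℓ`) consists of the action of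
the Galois group on the rational Tate module `ℚ_ℓ ⊗ W`, the cyclotomic character, the Weil pairing,
the theorems of Faltings on endomorphisms and on semisimplicity (`IsRealization`) and the theorem of
Deligne that Hodge classes are Tate classes. That the absence of relations between the conjugates of
the Weil numbers of one Frobenius element implies this was formalized before in the starting files
(MP_c1bb77_ag OneFrobeniusTowers, MP_33b3f9_ag AllCMFields).

**The theorem.** Let `E` be **any CM field of degree `2 g = 2 r ^ k`**, `r` a prime number, of
degree at least `16` if `r = 2`. Nothing is assumed about the Galois group of the normal closure of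
`E`, and nothing about the subfields of `E`.

* (`HalfOfAll`) For all weights `M` (odd if `r = 2`; if `r` is odd then `r` may divide some, but not
  all of them) the property `Q` is true for **at least one half of all `2 ^ g` types** of `E`.
* (`MostWithWeightsOne`) For the weights `M = 1` (for instance in the ordinary case) it is true for
  at least `(1 - 1 / r) 2 ^ g` of the types.
* (`OneOfTwo`) There is a set `B` of embeddings of `E`, stable under complex conjugation, such that
  for **every** type `Φ` it is true for `Φ` or for the symmetric difference of `Φ` and `B`.
* (`SixteenPercent`) There is a number `g₀` such that for every CM field that is **abelian over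
  `ℚ`**, of any degree `2 g ≥ 2 g₀`, and all odd weights it is true for at least 16 percent of all
  `2 ^ g` types; again nothing is assumed on the subfields.

All this is proved more generally for finitely many pairwise independent fields `K i`; the
proportions are then multiplied. Bounds of other starting files for the number of the exceptional
types can say nothing for these fields if they have many CM subfields (for instance for the
multiquadratic ones, where one half is the best possible proportion for the types without
relations).

The proof: if the types have no relations then there are no multiplicative relations between the
conjugates of the Weil numbers `π i`, so that the Frobenius torus is as large as possible, and the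
Tate classes are generated in degree two (`TH170/FT` of the starting files). The proportion of the
types without relations (`NoRelations`) is at least one half by the theorem of the starting files
(`Q29/DP`, `Q29/EP`), which was used there for other conjectures.
-/

set_option autoImplicit false

namespace Pool.Agent.Results.MP_298761_ag.HalfOfAllTypes

open NumberField Module Pool.Agent.H204R3.CM Pool.Agent.H977R3.CM Pool.Agent.TH170
  Pool.Agent.Q29.EP Pool.Agent.Run7.h879.HA



/-- Hodge classes are generated in degree two on all powers of the abelian varieties with a Frobenius
element whose characteristic polynomial is the product of the minimal polynomials of Weil numbers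
`π i` for `p ^ a` with the slope types `Φ i`, `M i`. -/
def HoldsAt {p : ℕ} [Fact p.Prime] (ν : PadicAlgCl p ≃+* ℂ) {I : Type} [Fintype I]
    (K : I → Type) [∀ i, Field (K i)] [∀ i, NumberField (K i)] [∀ i, IsCMField (K i)]
    (M : ∀ i, (K i →+* ℂ) → ℤ) (Φ : ∀ i, Set (K i →+* ℂ)) (a : ℕ) (π : ∀ i, K i) : Prop :=
  ∀ (W T Γ : Type) [AddCommGroup W] [Module ℚ W] [FiniteDimensional ℚ W] [AddCommGroup T]
    [Module ℂ T] [Group Γ] (per : W →+ T) (ω₀ : W →ₗ[ℚ] W →ₗ[ℚ] ℚ) (ℓ : ℕ) [Fact ℓ.Prime]
    (D : FT.GaloisData per ω₀ Γ ℓ), FT.IsOfType ν a K M Φ π →
      FT.HasFrobenius D.ρ D.χ p a π → FT.HodgeInDegreeTwo per

/-- The same for all Weil numbers with the slope types `Φ i`, `M i`. -/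
def Holds {p : ℕ} [Fact p.Prime] (ν : PadicAlgCl p ≃+* ℂ) {I : Type} [Fintype I]
    (K : I → Type) [∀ i, Field (K i)] [∀ i, NumberField (K i)] [∀ i, IsCMField (K i)]
    (M : ∀ i, (K i →+* ℂ) → ℤ) (Φ : ∀ i, Set (K i →+* ℂ)) : Prop :=
  ∀ (a : ℕ) (π : ∀ i, K i), 0 < a → HoldsAt ν K M Φ a π

/-- The property `Holds` of the families of slope types. -/
def Q : TypeProperty := fun _ _ ν _ _ K _ _ _ M Φ => Holds ν K M Φ

/-- **The noncommutative variational Hodge conjecture for families dominated by powers of abelian schemes: Hodge classes on the very general fibre are generated in degree two if there is a reduction
with one half of all slope types of every CM field of degree `2 r ^ k`.** -/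
theorem result : HalfOfAll Q ∧ MostWithWeightsOne Q ∧ OneOfTwo Q ∧ SixteenPercent Q :=
  four (of_notMem fun _ _ _ _ _ _ _ _ _ _ _ hind hM hΦ hnd =>
    fun _ _ ha _ _ _ _ _ _ _ _ _ _ _ _ _ D
      hπ hF => FT.hodge_of_mumfordTate D
        (FT.mumfordTate_of_types hind hM hΦ hnd ha hπ D.realization hF))

end Pool.Agent.Results.MP_298761_ag.HalfOfAllTypes
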