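import Mathlib
import Pool.Agent.Run7.h8.IC.Sums
import Pool.Agent.Run7.h8.IC.Plain

/-!
# The noncommutative variational Hodge conjecture for families dominated by powers of abelian
schemes of which one reduction has a Frobenius element in CM fields with isolated cycles

We consider abelian schemes over a base `S` such that the fibre `A` at a very general point `s₀`
has a Frobenius element as follows. This fibre is an abelian variety over a finitely generated
subfield of the complex numbers, of any dimension and with arbitrary endomorphisms; we assume
that it has good reduction at ONE place `v` of this field, with a residue field of `p ^ a`
elements, such that the characteristic polynomial of the Frobenius element at `v` is the product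
of the minimal polynomials of Weil numbers `π i` (`HasFrobenius`) as follows. For instance the
abelian scheme can be defined over the ring of integers of a number field with some primes
inverted, and `v` a closed point of this scheme: so it is enough that ONE of all reductions of
the fibres has such a Frobenius element.

The Weil numbers. Let `π i` be Weil numbers for `q = p ^ a` (algebraic integers with `π i * conj
(π i) = q`) in CM fields `K i`, finitely many. For a CM subfield `T` of `K i` let `unitNorm` be
the norm `N` of `π i` to `T`, normalised to absolute value one: `N ^ 2 / p ^ (a [K i : T])`. The
slopes of the `π i` are arbitrary. There are two assumptions.

* (`Separated`) Different embeddings of CM subfields `T i`, `T i'` of the fields (equal subfields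
  if `i = i'`) never map positive powers of these numbers to the same complex number. For one
  Weil number `π` in `K` this is equivalent to `NormsGenerate`: for all CM subfields `T` of `K`,
  all positive powers of the normalised norm to `T` generate the field `T`. This condition is
  necessary: exotic classes (for instance of Weil type) come from norms some powers of which lie
  in smaller fields.
* (`Cyclic`) For every family of CM subfields `T i` of the `K i`, `i ∈ S ≠ ∅`, some automorphism
  `τ` of `ℂ` has an *isolated cycle* on the complex embeddings of the `T i` (`IsolatedCycle`):
  for one embedding `ψ` the cycle of `ψ` under `τ` has `n > 1` elements, where `n` is any power
  of any prime number (or `n = 2 ^ a r ^ b`, `a > 0`, `r` an odd prime number, and the cycle is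
  stable under complex conjugation), and `n` does not divide the length of any other cycle,
  except for that of the complex conjugate of `ψ`. By the theorem of Chebotarev this is a
  condition on the decomposition of prime numbers: some prime number, unramified in the `T i`,
  has exactly one prime ideal, or one pair of complex conjugate prime ideals, in the fields `T i`
  whose residue degree is divisible by `n`, and this residue degree is `n`. Alternatively the
  family may have one of the properties of the starting files: some prime number divides one of
  the discriminants of the `T i`, but its third power does not divide their product; or some
  automorphism of `ℂ` moves at least one and at most four embeddings; and for norms with only two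
  slopes `third power` and `four` may be replaced by `fourth power` and `six`.

An example (second part of the theorem, `ForPrimePower`), in which the condition on the CM
subfields is not a hypothesis any more: `K` is **any** CM field of degree `2 r ^ k`, `r` a prime
number, such that some automorphism of `ℂ` acts on the pairs of complex conjugate embeddings of
`K` as one cycle (`OneOrbit`; for instance some prime number is inert in the maximal real
subfield of `K`, or is totally ramified there and does not divide the degree). `K` may have many
CM subfields. Then the conclusion is true for every Weil number `π` in `K` with `NormsGenerate`,
and arbitrary slopes. So for abelian varieties of prime power dimension with such a Frobenius
element exotic classes can only be explained by norms to CM subfields. (For `k = 1`, prime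
dimension, an automorphism as in `OneOrbit` always exists, and the result is similar to theorems
of Tankeev and Zarhin.)

The conclusion (`NCVariationalHolds`). Let `X → S` be a smooth proper family such that the rational
cohomology of the fibres is a direct summand of that of the powers of the fibres of the abelian
scheme, for instance a fibre power, and let `C` be an `S`-linear admissible subcategory of the
derived category of `X`. **If a global section `v` of the local system of the rational
topological K-groups of the fibres `C_s` is a Hodge class on one fibre, for instance the class of
an element of `K_0(C_0) ⊗ ℚ`, then on every fibre it is the class of an element of `K_0(C_s) ⊗
ℚ`.** In the formal statement (`NCVariationalFor`, `IsFamily`) the groups `H_1(A_s, ℚ)` are identified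
with `W` by parallel transport, and included in the tangent spaces `T s` by `per s`; the rational
topological K-group of `X_s` is a direct summand of the sum of the spaces `(H^1)^{⊗ 2 d j}(d j)`,
in which the submodule `N s` contains the classes of `K_0(X_s)` (what is used is that products of
Hodge classes of degree two are algebraic, by the theorem of Lefschetz), and `e` is the
endomorphism given by the projection functor of `C`, which maps `K_0(X_s)` onto `K_0(C_s)`. It is
also used that a global section which is a Hodge class on one fibre is a Hodge class on all
fibres (Deligne), and that Hodge classes of degree two of the very general fibre are Hodge
classes on all fibres. The data (`GaloisData`) are, for one prime number `ℓ`, the rational Tate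
module of the fibre at `s₀` with the comparison with `H_1`, the Galois action, the Weil pairing,
and the theorems of Faltings and of Deligne. That the maximality of the angle rank for one
Frobenius element implies that the Hodge classes are generated in degree two is a theorem of the
starting files (TH170.FT).

The starting files (MP_021685_ag OneFrobenius, MP_0fca13_ag TateRingOfPowers) have the criterion
for families of CM subfields with the alternative properties in `Cyclic`, and with automorphisms
which act on the pairs of conjugate embeddings as one cycle of odd *prime* length and *fix all
other embeddings*. New is that the length can be any prime power, including powers of two, or `2
^ a r ^ b`, and that the other embeddings can move, as long as the lengths of their cycles are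
not divisible by `n`; so the second part of the theorem is new for all `k > 1`. The reduction to
the slopes and the descent to the CM subfields are those of the starting files
(`Pool.Agent.W527`).

The proof. A multiplicative relation between the conjugates of the `π i` gives an odd function
`c` on the embeddings of a family of CM subfields, as small as possible, such that `∑ c (z) w (g
z) = 0` for all automorphisms `g`, where `w` is the function given by the slopes of the norms. We
apply this to `g τ ^ j`, multiply by `ζ ^ (-j)`, where `ζ` is a primitive `n`-th root of unity,
and sum over `j`. The cycles whose length is not divisible by `n` do not contribute. So for all
automorphisms `h`, `g` the product of `∑ c (h τ ^ i ψ) ζ ^ i` and of `∑ w (g τ ^ j ψ) ζ ^ (-j)`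
is zero. If the first sum is zero for all `h`, then the irreducibility of the cyclotomic
polynomial gives `c (h ψ) = c (h τ ^ (n / r) ψ)` for all `h`, so that `c` comes from smaller CM
subfields, a contradiction. If not, then in the same way `w (g ψ) = w (g τ ^ (n / r) ψ)` for all
`g`, which contradicts `Separated`. So the angle rank is maximal: the only multiplicative
relations are those given by `π i * conj (π i) = q`.
-/

set_option autoImplicit false

namespace Pool.Agent.Results.MP_298761_ag.IsolatedCycles

open Run7.h8.IC

/-- **The noncommutative variational Hodge conjecture for families dominated by powers of
abelian schemes of which one reduction has a Frobenius element in CM fields with isolated
cycles.** -/
theorem result :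
    ForAllCyclic (fun p _ a _ _ K _ _ _ π =>
      NCVariationalFor p a K π) ∧
    ForPrimePower (fun p _ a _ _ K _ _ _ π =>
      NCVariationalFor p a K π) :=
  both _ ncVariationalHoldsFor

end Pool.Agent.Results.MP_298761_ag.IsolatedCycles
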