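import Mathlib
import Pool.Agent.Run7.h479.SO.Frob
import Pool.Agent.Run7.h479.SO.Criteria

/-!
# The noncommutative variational Hodge conjecture for families dominated by powers of abelian schemes
with one reduction whose slopes on a half orbit do not sum to a sum of prime divisors

Let `S` be a smooth connected complex variety and `𝒜 → S` an abelian scheme, of any relative dimension
and with arbitrary endomorphisms. It is defined over a finitely generated field, and it extends to an
abelian scheme over a scheme of finite type over `ℤ`. We consider ONE closed point of this scheme,
with a residue field of `p ^ a` elements: one reduction of one fibre of the family. Let `A` be the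
generic fibre (embedded in the complex numbers, the fibre over a very general point). Suppose that
the characteristic polynomial of the Frobenius element at the closed point, on the Tate module of
`A`, is the product of the minimal polynomials of Weil numbers `π i` in CM fields `F i` of degree
`2 n i` (`HasFrobenius`); so `dim A = ∑ i, n i`. The starting results for one Frobenius element need
one of: large Galois groups, degrees that are (twice) powers of a prime number, or almost all slope
types. Here the degrees are arbitrary and the Galois groups may be as small as cyclic groups. We
assume:

* (`HalfOrbit`) There is a set `O` of complex embeddings of `F i`, one of each pair of complex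
  conjugate embeddings, which is an orbit of a group of automorphisms of `ℂ` that acts on `O`
  through a commutative group. By Chebotarev's density theorem it is enough that some prime number is
  inert in the maximal real subfield of `F i` and splits in `F i` (then one automorphism generates a
  group with such an orbit; this is proved in the file `Criteria.lean`). If `F i` contains an
  imaginary quadratic field `E`, it is enough that some prime number is inert in the maximal real
  subfield (whose normal closure is real, and so linearly disjoint from `E`), and `O` is the set of
  the embeddings that extend a given embedding of `E`.
* (`GoodSlopes`) We write `cdev ν a x φ = 2 ord_p (x) - a` for the deviation of the slope of `x` at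
  the embedding `φ` from the middle, where an isomorphism `ν` of the algebraic closure of `ℚ_p` with
  `ℂ` makes `φ` a `p`-adic embedding. For some `ν` the sum of the deviations of `π i` over `O` is not
  zero; and for some `ν` the deviations of `π i` on `O` are `b w + c` with real numbers `b ≠ 0`, `c`
  and natural numbers `w`, such that **the sum `k` of the numbers `w` over `O` is not a sum of prime
  divisors of `n i`** (with repetitions; `0` is the empty sum).
* (`Separated`, only if there are several fields) For `i ≠ i'` some automorphism acts on the complex
  embeddings of each of the fields as `1` or as the complex conjugation, as `1` for `F i` and as the
  complex conjugation for `F i'`.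

For instance let there be one field and let the slopes be `λ` and `1 - λ` only, `λ ≠ 1/2` (`λ = 0` is
the ordinary case). Then `w` can be the characteristic function of the set of the embeddings in `O`
with slope `1 - λ`, and `k` is the number of these embeddings; by the same argument for the
complement, it is enough that `k` or `n - k` is not a sum of prime divisors of `n` (and `2 k ≠ n`).
For `n = 15` the only signatures `(k, n - k)` which are excluded are those with `k` or `n - k` equal
to `0, 3, 5, 6`. In general the condition is true if `0 < k` is less than all prime divisors of `n`,
and if `k = r s - r - s` and `n` is divisible by no primes other than `r` and `s` (proved in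
`Criteria.lean`). Conversely, the condition cannot be improved for the cyclic group of order `n`: if
`k` is a sum of prime divisors of `n` then it is the sum of the values of a function `w` which is a
sum of characteristic functions of cosets of subgroups of prime order, and the translates of this
`w` do not span the functions on the group.

**Then all Hodge classes in the tensor powers `(H^1(A, ℚ))^{⊗ 2 m}(m)` of the very general fibre are
linear combinations of products of Hodge classes of degree two** (`HodgeInDegreeTwo`).

Let `f : X → S` be a power of `𝒜 → S`, or any smooth proper family whose fibres are dominated by such
powers (through a correspondence over `S`), and `𝒞` an `S`-linear admissible subcategory of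
`D_perf(X)`. Let `φ` be a global section of `K_0^top(𝒞 / S) ⊗ ℚ` which is algebraic at one point.
Then its values are Hodge classes (known, see the problem); the value at the very general point is
mapped to a Hodge class in `⨁ H^{2 k}(X_s, ℚ)(k)`, which is a combination of images of products of
divisor classes on the powers of `A`. These extend to divisors on the family, after a finite étale
base change, and the projection functor onto `𝒞` is `S`-linear. So **`φ_s` is algebraic for every
`s`**: Q1 holds for all these `f` and `𝒞`.

In the formal statement `W` is `H_1(A, ℚ)`, `per` its inclusion in the tangent space, `ω₀` the form
given by a polarization, and `D` (`GaloisData`, for one prime number `ℓ`) consists of the action of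
the Galois group on the rational Tate module `ℚ_ℓ ⊗ W`, the cyclotomic character, the Weil pairing,
the theorems of Faltings on endomorphisms and on semisimplicity (`IsRealization`) and the theorem of
Deligne that Hodge classes are Tate classes. The statement on Hodge classes follows from the
Mumford-Tate conjecture for `A` (MP_33b3f9_ag VanishingSums) and the theorem of Deligne by descent
from `ℚ_ℓ` to `ℚ` (starting files TH170).

The proof. Suppose that the product of some powers `φ (π i) ^ m (i, φ)` is a power of `q = p ^ a`, up
to a root of unity. Let `c (i, φ) = m (i, φ) - m (i, conj φ)`. The `p`-adic valuations of the images
under the automorphisms `σ` give `∑ c (i, φ) * cdev (σ φ) = 0`. `Separated` and Dedekind's theorem on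
the linear independence of characters (of the group of the automorphisms acting as `± 1`) give these
relations for every `i` separately. The sum over the orbit `O` and the first slope condition give
`∑_O c = 0`, and then the second slope condition gives `∑_O c (φ) w (σ φ) = 0` for all `σ` in the
group. The commutative transitive group `B` of permutations of `O` is simply transitive, so `w` is a
function on the group `B`, and if `c ≠ 0`, then a Fourier coefficient `∑ w (b) ψ (b)` of `w` for a
character `ψ` of `B` is zero. Its terms are `k` roots of unity of order dividing `n`, and by the
theorem of Lam and Leung (1996) on vanishing sums of roots of unity the number `k` of terms is a sum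
of prime divisors of `n`, a contradiction. The theorem of Lam and Leung is proved in the files `LL`.
-/

set_option autoImplicit false

namespace Pool.Agent.Results.MP_298761_ag.VanishingSums

open NumberField Module Pool.Agent.TH170 Pool.Agent.Run7.h479.SO

/-- **All Hodge classes in the tensor powers of `H^1` of the very general fibre of an abelian scheme are
generated in degree two, if one reduction has good slopes on half orbits.** -/
theorem result (p : ℕ) [Fact p.Prime] (a : ℕ) (ha : 0 < a)
    (ι : Type) [Fintype ι] (F : ι → Type) [∀ i, Field (F i)] [∀ i, NumberField (F i)]
    [∀ i, IsCMField (F i)] (π : ∀ i, F i)
    (hweil : ∀ i, π i * IsCMField.complexConj (F i) (π i) = (p : F i) ^ a)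
    (hsep : Separated F) (hgood : ∀ i, GoodSlopes p a (π i))
    (W T Γ : Type) [AddCommGroup W] [Module ℚ W] [FiniteDimensional ℚ W] [AddCommGroup T]
    [Module ℂ T] [Group Γ] (per : W →+ T) (ω₀ : W →ₗ[ℚ] W →ₗ[ℚ] ℚ) (ℓ : ℕ) [Fact ℓ.Prime]
    (D : FT.GaloisData per ω₀ Γ ℓ) (hF : FT.HasFrobenius D.ρ D.χ p a π) :
    FT.HodgeInDegreeTwo per :=
  FT.hodge_of_mumfordTate D (mumfordTate_of_good ha hweil hsep hgood D.realization hF)

end Pool.Agent.Results.MP_298761_ag.VanishingSums
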